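import Pool.Agent.X122.GS5

set_option autoImplicit false

/-! # MP_c62c12_an: the period of the greedy sign-choice walk is not `O(1 / ‖2 α‖)`

`zs α z₀ n` is `z_{n-1}` (so `zs α z₀ 0 = z_{-1} = z₀`), `eps α z₀ n` is the sign `ε_n`,
`Admissible` says that no tie occurs, `EventuallyPeriodic` that the sign sequence is eventually
periodic, and `period` is its least period (all defined in `Pool.Agent.X122.GS1`).

The first part: arbitrarily close to `α* = arccos (2/3) / (2 π) = 0.1338...` there are irrational
`α` with admissible starting points whose sign sequences are periodic with arbitrarily large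
period.  Since `‖2 α*‖ = 0.267...`, the bound asked for in Q1 fails (second part). -/

namespace Pool.Agent.Results.MP_c62c12_an.LongPeriods

open Pool.Agent.X122.GS

theorem result :
    (∀ (K : ℕ) (δ : ℝ), 0 < δ →
      ∃ α : ℝ, 0 < α ∧ Irrational α ∧ |α - Real.arccos (2 / 3) / (2 * Real.pi)| < δ ∧
        ∃ z₀ : ℂ, Admissible α z₀ ∧ EventuallyPeriodic α z₀ ∧ K < period α z₀) ∧
    ¬ ∃ c : ℝ, 0 < c ∧ ∀ α : ℝ, 0 < α → Irrational α → ∀ z₀ : ℂ,
      Admissible α z₀ → EventuallyPeriodic α z₀ →
        (period α z₀ : ℝ) ≤ c / |2 * α - round (2 * α)| :=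
  ⟨fun K δ hδ => long K δ hδ, not_bounded⟩

end Pool.Agent.Results.MP_c62c12_an.LongPeriods
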